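import Pool.Agent.Helper44.GN.Defs

/-! Module MAPF: the image of a cycle under an invertible linear map. -/

set_option autoImplicit false

open Finset MeasureTheory Filter Topology Matrix
open scoped ENNReal ContDiff

namespace Pool.Agent.Helper44.GN

open Pool.Agent.Helper44.GF

/-- the linear map -/
noncomputable def mapf_cl {n : ℕ} (A : Matrix (Fin n) (Fin n) ℝ) :
    (Fin n → ℝ) →L[ℝ] (Fin n → ℝ) :=
  LinearMap.toContinuousLinearMap (Matrix.mulVecLin A)

theorem mapf_cl_apply {n : ℕ} (A : Matrix (Fin n) (Fin n) ℝ) (x : Fin n → ℝ) :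
    mapf_cl A x = A.mulVec x := rfl

theorem mapf_indep {n k : ℕ} (A : Matrix (Fin n) (Fin n) ℝ) (hA : A.det ≠ 0)
    (d : Fin k → Fin n → ℝ) (h : LinearIndependent ℝ d) :
    LinearIndependent ℝ (fun i => A.mulVec (d i)) := by
  have h1 : IsUnit A := (Matrix.isUnit_iff_isUnit_det A).mpr (isUnit_iff_ne_zero.mpr hA)
  have h2 : Function.Injective A.mulVec := Matrix.mulVec_injective_iff_isUnit.mpr h1
  have h3 : LinearMap.ker (Matrix.mulVecLin A) = ⊥ := LinearMap.ker_eq_bot.mpr h2
  exact h.map' (Matrix.mulVecLin A) h3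

/-- the image of a face -/
noncomputable def mapf_face {n k : ℕ} (A : Matrix (Fin n) (Fin n) ℝ) (hA : A.det ≠ 0)
    (F : Face k n) : Face k n where
  verts := F.verts
  solid := F.solid
  base := A.mulVec F.base
  dir := fun i => A.mulVec (F.dir i)
  indep := mapf_indep A hA F.dir F.indep

theorem mapf_param {n k : ℕ} (A : Matrix (Fin n) (Fin n) ℝ) (hA : A.det ≠ 0) (F : Face k n)
    (t : Fin k → ℝ) : (mapf_face A hA F).param t = mapf_cl A (F.param t) := by
  unfold Face.param
  change A.mulVec F.base + ∑ i, t i • A.mulVec (F.dir i) = mapf_cl A (F.base + ∑ i, t i • F.dir i)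
  rw [map_add, map_sum]
  congr 1
  refine Finset.sum_congr rfl fun i _ => ?_
  rw [map_smul]
  rfl

theorem mapf_intd {n m : ℕ} (A : Matrix (Fin n) (Fin n) ℝ) (hA : A.det ≠ 0)
    (F : Face (m + 1) n) (w : (Fin n → ℝ) → (Fin n → ℝ) [⋀^Fin m]→L[ℝ] ℝ)
    (hw : ContDiff ℝ ∞ w) :
    F.intd (fun x => (w (mapf_cl A x)).compContinuousLinearMap (mapf_cl A)) =
      (mapf_face A hA F).intd w := by
  have key : ∀ x : Fin n → ℝ,
      extDeriv (fun x => (w (mapf_cl A x)).compContinuousLinearMap (mapf_cl A)) x =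
        (extDeriv w (mapf_cl A x)).compContinuousLinearMap (mapf_cl A) := by
    intro x
    have hd : DifferentiableAt ℝ w (mapf_cl A x) :=
      (hw.differentiable (by simp)).differentiableAt
    have h1 : extDeriv (fun x => (w (mapf_cl A x)).compContinuousLinearMap
        (fderiv ℝ (mapf_cl A) x)) x =
        (extDeriv w (mapf_cl A x)).compContinuousLinearMap (fderiv ℝ (mapf_cl A) x) :=
      extDeriv_pullback (r := 2) hd ((mapf_cl A).contDiff.contDiffAt) (by simp)
    simp only [ContinuousLinearMap.fderiv] at h1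
    exact h1
  unfold Face.intd
  change (∫ t in F.dom, _) = ∫ t in F.dom, _
  refine integral_congr_ae (Filter.Eventually.of_forall fun t => ?_)
  change extDeriv (fun x => (w (mapf_cl A x)).compContinuousLinearMap (mapf_cl A)) (F.param t)
    F.dir = extDeriv w ((mapf_face A hA F).param t) (mapf_face A hA F).dir
  rw [key, mapf_param]
  rfl

theorem st_MAPF : ST_MAPF := by
  intro m n K A hA F θ hc
  refine ⟨fun j => mapf_face A hA (F j), ?_, fun j => rfl, ?_⟩
  · intro w hw
    have hcd : ContDiff ℝ ∞ (fun x => (w (mapf_cl A x)).compContinuousLinearMap (mapf_cl A)) := by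
      have h0 : ContDiff ℝ ∞ (fun x => w (mapf_cl A x)) := hw.comp (mapf_cl A).contDiff
      exact (ContinuousAlternatingMap.compContinuousLinearMapCLM (𝕜 := ℝ) (ι := Fin m) (F := ℝ)
        (mapf_cl A)).contDiff.comp h0
    have h1 := hc (fun x => (w (mapf_cl A x)).compContinuousLinearMap (mapf_cl A)) hcd
    rw [← h1]
    refine Finset.sum_congr rfl fun j _ => ?_
    rw [mapf_intd A hA (F j) w hw]
  · intro j
    ext i k
    rw [Matrix.mul_apply]
    change A.mulVec ((F j).dir k) i = _
    rw [Matrix.mulVec, dotProduct]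
    rfl

end Pool.Agent.Helper44.GN
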